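import Pool.Agent.Helper20.EP.Defs

/-!
# EP: exact statements of the modules OSM, TSM, WINV, EQ, EKU, CDF, AC
-/

set_option autoImplicit false

open Polynomial Filter Topology MeasureTheory ProbabilityTheory

namespace Pool.Agent.Helper20.EP

/-! ## Mertens' theorem for polynomials -/

/-- OSM, one-sided theorem of Mertens with a uniform error. -/
def S_OSM : Prop := ∀ D : ℕ, ∃ C : ℝ, 0 < C ∧ ∀ g : ℤ[X], g.Monic → Irreducible g →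
  g.natDegree = D → ∀ H : ℝ, 2 ≤ H → RootsLE g H → ∀ Y : ℝ, 1 ≤ Y →
    ∑ p ∈ primesLE Y, (rho g p : ℝ) * Real.log p / p ≤ Real.log Y + C * Real.log H

/-- TSM, lower bound with a much larger error. -/
def S_TSM : Prop := ∀ D : ℕ, ∃ C : ℕ, ∀ g : ℤ[X], g.Monic → Irreducible g →
  g.natDegree = D → 1 ≤ D → ∀ H : ℝ, 2 ≤ H → RootsLE g H → ∀ Y : ℝ, 1 ≤ Y →
    Real.log Y - H ^ C ≤ ∑ p ∈ primesLE Y, (rho g p : ℝ) * Real.log p / p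

/-! ## Exponential sums -/

/-- WINV: if the exponential sum of a real polynomial is large, all coefficients are close to
rationals with a common small denominator. -/
def S_WINV : Prop := ∀ D : ℕ, ∃ C : ℕ, ∀ f : ℝ[X], f.natDegree ≤ D → ∀ N : ℕ, 1 ≤ N →
  ∀ K : ℝ, 2 ≤ K → (N : ℝ) / K ≤ ‖∑ n ∈ Finset.range N, ee (f.eval (n : ℝ))‖ →
    ∃ q : ℕ, 1 ≤ q ∧ (q : ℝ) ≤ K ^ C ∧
      ∀ j : ℕ, 1 ≤ j → j ≤ D → ∃ b : ℤ, |q * f.coeff j - b| ≤ K ^ C / (N : ℝ) ^ j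

/-- EQ: small exponential sums imply equidistribution in intervals. -/
def S_EQ : Prop := ∃ C : ℝ, ∀ (g : ℕ → ℝ) (N H : ℕ), 1 ≤ H →
  (∀ h : ℕ, 1 ≤ h → h ≤ H ^ 2 → ‖∑ n ∈ Finset.range N, ee (h * g n)‖ ≤ (N : ℝ) / H ^ 2) →
    ∀ a b : ℝ, a ≤ b → b ≤ a + 1 →
      |(((Finset.range N).filter fun n => Int.fract (g n - a) < b - a).card : ℝ) -
        (b - a) * N| ≤ C * N / Real.sqrt H

/-! ## Probability -/

/-- EKU: uniform central limit theorem for the number of `p ∈ P` dividing `v n`. -/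
def S_EKU : Prop := ∀ (t ε : ℝ), 0 < ε → ∃ (k : ℕ) (σ₀ δ : ℝ), 0 < σ₀ ∧ 0 < δ ∧
  ∀ (Ω : Finset ℕ) (v : ℕ → ℤ) (P : Finset ℕ) (lam : ℕ → ℝ), Ω.Nonempty →
    (∀ p ∈ P, 0 ≤ lam p ∧ lam p ≤ 1) → σ₀ ≤ Real.sqrt (∑ p ∈ P, lam p * (1 - lam p)) →
    (∀ Q ⊆ P, Q.card ≤ k →
      |((Ω.filter fun n => ∀ p ∈ Q, (p : ℤ) ∣ v n).card : ℝ) - Ω.card * ∏ p ∈ Q, lam p| ≤
        δ * Ω.card / (1 + (P.card : ℝ)) ^ k) →
    ‖(∑ n ∈ Ω, Complex.exp (t * Complex.I *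
        ((((P.filter fun p : ℕ => (p : ℤ) ∣ v n).card : ℝ) - ∑ p ∈ P, lam p) /
          Real.sqrt (∑ p ∈ P, lam p * (1 - lam p)) : ℝ))) / (Ω.card : ℂ) -
      Complex.exp (-(t : ℂ) ^ 2 / 2)‖ ≤ ε

/-- CDF: convergence of the characteristic functions implies convergence of the distribution
functions to that of the standard normal law. -/
def S_CDF : Prop := ∀ x : ℕ → ℕ → ℝ,
  (∀ t : ℝ, Tendsto (fun N : ℕ => (∑ n ∈ Finset.Icc 1 N, Complex.exp (t * Complex.I * (x N n : ℝ))) /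
    (N : ℂ)) atTop (𝓝 (Complex.exp (-(t : ℂ) ^ 2 / 2)))) →
  ∀ t : ℝ, Tendsto (fun N : ℕ => (((Finset.Icc 1 N).filter fun n => x N n ≤ t).card : ℝ) / N) atTop
    (𝓝 ((gaussianReal 0 1).real (Set.Iic t)))

/-! ## Congruences -/

/-- FIB: a polynomial has few large fibres modulo `q`. -/
def S_FIB : Prop := ∀ (d : ℕ) (η : ℝ), 0 < η → ∃ (c C : ℝ), 0 < c ∧ ∀ (F : ℤ[X]) (q : ℕ),
  F.natDegree ≤ d → 1 ≤ q →
  (∀ g : ℕ, g ∣ q → (∀ j, 1 ≤ j → (g : ℤ) ∣ F.coeff j) → g = 1) →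
    ((((Finset.range q).filter fun r : ℕ => (q : ℝ) ^ η <
        (((Finset.range q).filter fun r' : ℕ =>
          (q : ℤ) ∣ F.eval (r' : ℤ) - F.eval (r : ℤ)).card : ℝ)).card : ℕ) : ℝ) ≤
      C * (q : ℝ) ^ (1 - c)

end Pool.Agent.Helper20.EP
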