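import Pool.Agent.Helper20.EP.Defs3

/-!
# EP: exact statements for the assembly
-/

set_option autoImplicit false

open Polynomial Filter Topology MeasureTheory ProbabilityTheory

namespace Pool.Agent.Helper20.EP

/-! ## Approximations -/

/-- EXDAT: an almost optimal approximation exists. -/
def S_EXDAT : Prop := ∀ f : ℝ[X], 1 ≤ f.natDegree → ∀ N : ℕ, 1 ≤ N →
  ∃ (q : ℕ) (F : ℤ[X]) (T M : ℝ), Dat f N q F T M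

/-- LIMM: the complexity tends to infinity. -/
def S_LIMM : Prop := ∀ f : ℝ[X], (∃ j : ℕ, 1 ≤ j ∧ Irrational (f.coeff j)) → ∀ B : ℝ,
  ∃ N₀ : ℕ, ∀ N : ℕ, N₀ ≤ N → ∀ (q : ℕ) (F : ℤ[X]) (T M : ℝ), Dat f N q F T M → B ≤ M

/-- EXPS: exponential sums are small (from WINV). -/
def S_EXPS : Prop := ∀ D : ℕ, 1 ≤ D → ∃ c M₁ : ℝ, 0 < c ∧ c < 1 ∧
  ∀ (f : ℝ[X]) (N q : ℕ) (F : ℤ[X]) (T M : ℝ), f.natDegree = D → 1 ≤ N → Dat f N q F T M →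
    M₁ ≤ M → ∀ h m a L : ℕ, 1 ≤ h → (h : ℝ) ≤ M ^ c → 1 ≤ m → (m : ℝ) ≤ M ^ c →
      a + L ≤ N + 1 →
        ‖∑ n ∈ Finset.range L, ee (h * (f.eval ((a + n : ℕ) : ℝ) / m))‖ ≤ N * M ^ (-c)

/-- ALPHA: equidistribution of `f(n) / m` (from EXPS and EQ). -/
def S_ALPHA : Prop := ∀ D : ℕ, 1 ≤ D → ∃ c M₁ : ℝ, 0 < c ∧ c < 1 ∧
  ∀ (f : ℝ[X]) (N q : ℕ) (F : ℤ[X]) (T M : ℝ), f.natDegree = D → 1 ≤ N → Dat f N q F T M →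
    M₁ ≤ M → ∀ m a L : ℕ, 1 ≤ m → (m : ℝ) ≤ M ^ c → a + L ≤ N + 1 →
      ∀ u v : ℝ, u ≤ v → v ≤ u + 1 →
        |(((Finset.range L).filter fun n =>
          Int.fract (f.eval ((a + n : ℕ) : ℝ) / m - u) < v - u).card : ℝ) - (v - u) * L| ≤
            N * M ^ (-c)

/-- DIVA: divisibility of `⌊f(n)⌋` by `m ≤ M ^ c` (from ALPHA). -/
def S_DIVA : Prop := ∀ D : ℕ, 1 ≤ D → ∃ c M₁ : ℝ, 0 < c ∧ c < 1 ∧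
  ∀ (f : ℝ[X]) (N q : ℕ) (F : ℤ[X]) (T M : ℝ), f.natDegree = D → 1 ≤ N → Dat f N q F T M →
    M₁ ≤ M → ∀ m : ℕ, 1 ≤ m → (m : ℝ) ≤ M ^ c →
      |cnt N (fun n => (m : ℤ) ∣ ⌊f.eval (n : ℝ)⌋) - N / m| ≤ N * M ^ (-c)

/-! ## Polynomials on intervals -/

/-- RUNS: a level set of a polynomial consists of few intervals. -/
def S_RUNS : Prop := ∀ (d : ℕ) (θ : ℝ[X]) (u v : ℝ) (N m : ℕ) (R : Finset ℕ),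
  θ.natDegree ≤ d → 1 ≤ m → R ⊆ Finset.range m →
    |cnt N (fun n => u ≤ θ.eval (n : ℝ) ∧ θ.eval (n : ℝ) < v ∧ n % m ∈ R) -
      (R.card : ℝ) / m * cnt N (fun n => u ≤ θ.eval (n : ℝ) ∧ θ.eval (n : ℝ) < v)| ≤
        (4 * d + 2) * R.card

/-- SUBI: sublevel sets. -/
def S_SUBI : Prop := ∀ d : ℕ, ∃ c C : ℝ, 0 < c ∧ ∀ (θ : ℝ[X]) (N : ℕ) (T : ℝ),
  θ.natDegree ≤ d → 1 ≤ N → 0 < T → (∃ j : ℕ, T ≤ |θ.coeff j| * (N : ℝ) ^ j) →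
    ∀ l τ : ℝ, 0 < τ → τ ≤ 1 → l ≤ c * τ ^ d * T →
      cnt N (fun n => |θ.eval (n : ℝ)| ≤ l) ≤ τ * N + C

/-- SUBU: the values of a polynomial in a union of unit intervals (from SUBI). -/
def S_SUBU : Prop := ∀ d : ℕ, 1 ≤ d → ∃ C : ℝ, 0 < C ∧ ∀ (θ : ℝ[X]) (N : ℕ) (T : ℝ),
  θ.natDegree ≤ d → 1 ≤ N → 0 < T → (∃ j : ℕ, 1 ≤ j ∧ T ≤ |θ.coeff j| * (N : ℝ) ^ j) →
    ∀ (U : Finset ℤ) (τ : ℝ), 0 < τ → τ ≤ 1 →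
      cnt N (fun n => ⌊θ.eval (n : ℝ)⌋ ∈ U) ≤
        C * (τ * N + 1 + U.card * (1 + N / (T * τ ^ (d - 1))))

/-! ## Cells -/

/-- SCALE: in the major case `F` is of the right size. -/
def S_SCALE : Prop := ∀ f : ℝ[X], 1 ≤ f.natDegree → ∃ (C0 : ℝ) (N₀ : ℕ), 1 ≤ C0 ∧
  ∀ (N q : ℕ) (F : ℤ[X]) (T M : ℝ), N₀ ≤ N → Dat f N q F T M → M ^ 2 ≤ N →
    (∃ R : ℝ, Scale f.natDegree C0 F M R) ∧ ∀ n ∈ Finset.Icc 1 N, |(sn f q F n : ℝ)| ≤ C0 * M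

/-- DIVC: divisibility in a cell (from RUNS). -/
def S_DIVC : Prop := ∀ (f : ℝ[X]) (N q : ℕ) (F : ℤ[X]) (s : ℤ) (Q : Finset ℕ), 1 ≤ q →
  F.natDegree ≤ f.natDegree → (∀ p ∈ Q, p.Prime ∧ ¬ p ∣ q) →
    |(((cell f N q F s).filter fun n : ℕ => ∀ p ∈ Q, (p : ℤ) ∣ ⌊f.eval (n : ℝ)⌋).card : ℝ) -
      (cell f N q F s).card * ∏ p ∈ Q, lam F s p| ≤
        2 * (4 * f.natDegree + 2) * q * ∏ p ∈ Q, (p : ℝ)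

/-- PAC: sparse sets of `s` have small mass (from FIB, RUNS and SUBU). -/
def S_PAC : Prop := ∀ f : ℝ[X], 1 ≤ f.natDegree → ∀ c : ℝ, 0 < c → c < 1 →
  ∃ c' M₁ : ℝ, 0 < c' ∧ ∀ (N q : ℕ) (F : ℤ[X]) (T M : ℝ), Dat f N q F T M → M₁ ≤ M →
    M ^ 2 ≤ N → ∀ A : Finset ℤ, (A.card : ℝ) ≤ M ^ (1 - c) →
      cnt N (fun n => sn f q F n ∈ A) ≤ N * M ^ (-c')

/-- INT: short intervals of `s` have small mass (from ALPHA and SUBI). -/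
def S_INT : Prop := ∀ f : ℝ[X], 1 ≤ f.natDegree → ∀ ε : ℝ, 0 < ε →
  ∃ η M₁ : ℝ, 0 < η ∧ ∀ (N q : ℕ) (F : ℤ[X]) (T M : ℝ), Dat f N q F T M → M₁ ≤ M →
    M ^ 2 ≤ N → ∀ u : ℝ, cnt N (fun n => |(sn f q F n : ℝ) - u| ≤ η * M) ≤ ε * N

/-! ## Prime sums -/

/-- MERT: the second theorem of Mertens. -/
def S_MERT : Prop := ∃ C : ℝ, ∀ x : ℝ, 2 ≤ x → |∑ p ∈ primesLE x, (1 : ℝ) / p - ll x| ≤ C

/-- OMR: the reciprocals of the prime divisors of a number (from MERT). -/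
def S_OMR : Prop := ∀ ε : ℝ, 0 < ε → ∃ N₀ : ℕ, ∀ N : ℕ, N₀ ≤ N → ∀ n : ℕ, 1 ≤ n → n ≤ N ^ 2 →
  ∑ p ∈ n.primeFactors, (1 : ℝ) / p ≤ ε * Real.sqrt (ll N)

/-- QPR: few primes dividing `q` divide `⌊f(n)⌋` (from DIVA and OMR). -/
def S_QPR : Prop := ∀ f : ℝ[X], 1 ≤ f.natDegree → ∀ ε : ℝ, 0 < ε →
  ∃ (M₁ : ℝ) (N₀ : ℕ), ∀ (N q : ℕ) (F : ℤ[X]) (T M : ℝ), N₀ ≤ N → Dat f N q F T M → M₁ ≤ M →
    M ^ 2 ≤ N →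
      cnt N (fun n => ε * Real.sqrt (ll N) <
        ((q.primeFactors.filter fun p : ℕ => (p : ℤ) ∣ ⌊f.eval (n : ℝ)⌋).card : ℝ)) ≤ ε * N

/-- SMALL: the mean over the primes `≤ M` (from DIVA, DIVC, MERT, OMR and SCALE). -/
def S_SMALL : Prop := ∀ f : ℝ[X], 1 ≤ f.natDegree → ∀ ε : ℝ, 0 < ε →
  ∃ (K : ℕ) (M₁ : ℝ) (N₀ : ℕ), ∀ (N q : ℕ) (F : ℤ[X]) (T M : ℝ), N₀ ≤ N → Dat f N q F T M →
    M₁ ≤ M → M ^ K ≤ N →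
      cnt N (fun n => ε * Real.sqrt (ll N) < |mu F q M (sn f q F n) - ll M|) ≤ ε * N

/-- VAR: mean and variance are close (from DIVA, OMR and SCALE). -/
def S_VAR : Prop := ∀ f : ℝ[X], 1 ≤ f.natDegree → ∀ ε : ℝ, 0 < ε →
  ∃ (M₁ : ℝ) (N₀ : ℕ), ∀ (N q : ℕ) (F : ℤ[X]) (T M y : ℝ), N₀ ≤ N → Dat f N q F T M → M₁ ≤ M →
    M ^ 2 ≤ N →
      cnt N (fun n => ε * ll N < |va F q y (sn f q F n) - mu F q y (sn f q F n)|) ≤ ε * N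

/-- MEAN: the mean over the primes `≤ y` (from SMALL, LARGE, PAC, INT and SCALE). -/
def S_MEAN : Prop := ∀ f : ℝ[X], 1 ≤ f.natDegree → ∀ ε : ℝ, 0 < ε →
  ∃ (K : ℕ) (M₁ : ℝ) (N₀ : ℕ), ∀ (N q : ℕ) (F : ℤ[X]) (T M y : ℝ), N₀ ≤ N → Dat f N q F T M →
    M₁ ≤ M → M ^ K ≤ N → M ≤ y → y ≤ N →
      cnt N (fun n => ε * Real.sqrt (ll N) < |mu F q y (sn f q F n) - ll y|) ≤ ε * N

/-- BIGP: the primes `> y`. -/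
def S_BIGP : Prop := ∀ f : ℝ[X], 1 ≤ f.natDegree → ∃ (C : ℝ) (N₀ : ℕ), 0 < C ∧
  ∀ N : ℕ, N₀ ≤ N → ∀ n ∈ Finset.Icc 1 N, ⌊f.eval (n : ℝ)⌋ ≠ 0 → ∀ y : ℝ, 2 ≤ y →
    |(omg ⌊f.eval (n : ℝ)⌋ : ℝ) - Zn f 1 y n| ≤ C * (Real.log N / Real.log y)

/-- ZERO: the values `0`. -/
def S_ZERO : Prop := ∀ f : ℝ[X], 1 ≤ f.natDegree → ∃ C : ℝ, ∀ N : ℕ,
  cnt N (fun n => ⌊f.eval (n : ℝ)⌋ = 0) ≤ C

/-! ## Probability -/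

/-- EK2: second moments. -/
def S_EK2 : Prop := ∀ (Ω : Finset ℕ) (v : ℕ → ℤ) (P : Finset ℕ) (lam : ℕ → ℝ),
  (∀ p ∈ P, 0 ≤ lam p ∧ lam p ≤ 1) →
  (∀ Q ⊆ P, Q.card ≤ 2 →
    |((Ω.filter fun n => ∀ p ∈ Q, (p : ℤ) ∣ v n).card : ℝ) - Ω.card * ∏ p ∈ Q, lam p| ≤
      Ω.card / (1 + (P.card : ℝ)) ^ 2) →
    ∑ n ∈ Ω, (((P.filter fun p : ℕ => (p : ℤ) ∣ v n).card : ℝ) - ∑ p ∈ P, lam p) ^ 2 ≤
      Ω.card * (∑ p ∈ P, lam p * (1 - lam p) + 4)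

/-- COMB: combination of the cells. -/
def S_COMB : Prop := ∀ (N : ℕ) (key : ℕ → ℤ) (G : Finset ℤ) (x z : ℕ → ℝ) (t ε : ℝ),
  1 ≤ N → 0 < ε → ε ≤ 1 →
  (∀ s ∈ G, ‖∑ n ∈ (Finset.Icc 1 N).filter (fun n => key n = s),
      Complex.exp (t * Complex.I * (z n : ℝ)) -
    (((Finset.Icc 1 N).filter (fun n => key n = s)).card : ℂ) * Complex.exp (-(t : ℂ) ^ 2 / 2)‖ ≤
      ε * (((Finset.Icc 1 N).filter (fun n => key n = s)).card : ℝ)) →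
  (∀ s ∈ G, ∑ n ∈ (Finset.Icc 1 N).filter (fun n => key n = s), z n ^ 2 ≤
      2 * (((Finset.Icc 1 N).filter (fun n => key n = s)).card : ℝ)) →
  cnt N (fun n => key n ∉ G) ≤ ε * N →
  cnt N (fun n => ε * (1 + |z n|) < |x n - z n|) ≤ ε * N →
    ‖(∑ n ∈ Finset.Icc 1 N, Complex.exp (t * Complex.I * (x n : ℝ))) / (N : ℂ) -
      Complex.exp (-(t : ℂ) ^ 2 / 2)‖ ≤ (5 + 3 * |t|) * ε

/-- MINC: the characteristic function in the minor case (from DIVA, EKU and EK2). -/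
def S_MINC : Prop := ∀ D : ℕ, 1 ≤ D → ∀ t ε : ℝ, 0 < ε → ∃ (K : ℕ) (M₁ σ₀ : ℝ),
  ∀ (f : ℝ[X]) (N q : ℕ) (F : ℤ[X]) (T M y : ℝ), f.natDegree = D → 1 ≤ N → Dat f N q F T M →
    M₁ ≤ M → 1 ≤ y → y ^ K ≤ M → σ₀ ≤ Real.sqrt (va0 y) →
      ‖(∑ n ∈ Finset.Icc 1 N, Complex.exp (t * Complex.I *
          (((Zn f 1 y n : ℝ) - mu0 y) / Real.sqrt (va0 y) : ℝ))) / (N : ℂ) -
        Complex.exp (-(t : ℂ) ^ 2 / 2)‖ ≤ ε ∧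
      ∑ n ∈ Finset.Icc 1 N, (((Zn f 1 y n : ℝ) - mu0 y) / Real.sqrt (va0 y)) ^ 2 ≤ 2 * N

/-- CELLC: the characteristic function in a cell (from DIVC, EKU and EK2). -/
def S_CELLC : Prop := ∀ (D : ℕ) (t ε : ℝ), 0 < ε → ∃ (K : ℕ) (N₀ σ₀ : ℝ),
  ∀ (f : ℝ[X]) (N q : ℕ) (F : ℤ[X]) (M y : ℝ) (s : ℤ), f.natDegree = D → 1 ≤ q →
    F.natDegree ≤ f.natDegree → (q : ℝ) ≤ M → N₀ ≤ N → M ^ K ≤ N → 1 ≤ y → y ^ K ≤ N →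
    1 ≤ N → (N : ℝ) ≤ M ^ 3 * (cell f N q F s).card → σ₀ ≤ Real.sqrt (va F q y s) →
      ‖(∑ n ∈ cell f N q F s, Complex.exp (t * Complex.I *
          (((Zn f q y n : ℝ) - mu F q y s) / Real.sqrt (va F q y s) : ℝ))) /
            ((cell f N q F s).card : ℂ) - Complex.exp (-(t : ℂ) ^ 2 / 2)‖ ≤ ε ∧
      ∑ n ∈ cell f N q F s, (((Zn f q y n : ℝ) - mu F q y s) / Real.sqrt (va F q y s)) ^ 2 ≤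
        2 * (cell f N q F s).card

/-- MAJ: the major case (from CELLC, MEAN, VAR, QPR, BIGP, ZERO, COMB and SCALE). -/
def S_MAJ : Prop := ∀ f : ℝ[X], 1 ≤ f.natDegree → ∀ t ε : ℝ, 0 < ε →
  ∃ (K : ℕ) (κ M₁ : ℝ) (N₀ : ℕ), 0 < κ ∧ ∀ (N q : ℕ) (F : ℤ[X]) (T M y : ℝ), N₀ ≤ N →
    Dat f N q F T M → M₁ ≤ M → M ^ K ≤ N → M ≤ y → y ^ K ≤ N → Good κ N y →
      ‖(∑ n ∈ Finset.Icc 1 N, Complex.exp (t * Complex.I * (xn f N n : ℝ))) / (N : ℂ) -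
        Complex.exp (-(t : ℂ) ^ 2 / 2)‖ ≤ ε

/-- MIN: the minor case (from MINC, BIGP, ZERO, MERT and COMB). -/
def S_MIN : Prop := ∀ f : ℝ[X], 1 ≤ f.natDegree → ∀ t ε : ℝ, 0 < ε →
  ∃ (K : ℕ) (κ M₁ : ℝ) (N₀ : ℕ), 0 < κ ∧ ∀ (N q : ℕ) (F : ℤ[X]) (T M y : ℝ), N₀ ≤ N →
    Dat f N q F T M → M₁ ≤ M → y ^ K ≤ M → Good κ N y →
      ‖(∑ n ∈ Finset.Icc 1 N, Complex.exp (t * Complex.I * (xn f N n : ℝ))) / (N : ℂ) -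
        Complex.exp (-(t : ℂ) ^ 2 / 2)‖ ≤ ε

/-- FIN: the theorem (from EXDAT, LIMM, MAJ, MIN and CDF). -/
def S_FIN : Prop := ∀ f : ℝ[X], (∃ j : ℕ, 1 ≤ j ∧ Irrational (f.coeff j)) → ∀ t : ℝ,
  Tendsto (fun N : ℕ => (((Finset.Icc 1 N).filter fun n => xn f N n ≤ t).card : ℝ) / N) atTop
    (𝓝 ((gaussianReal 0 1).real (Set.Iic t)))

end Pool.Agent.Helper20.EP
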