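import Pool.Agent.Helper20.EP.Defs2

/-!
# EP: exact statements for the heart (Hilbert irreducibility in short intervals, duality)
-/

set_option autoImplicit false

open Polynomial Filter Topology

namespace Pool.Agent.Helper20.EP

/-- ROOTS: root functions away from the critical values. -/
def S_ROOTS : Prop := ∀ (d : ℕ) (C0 η : ℝ), 1 ≤ d → 1 ≤ C0 → 0 < η →
  ∃ ρ M₀ : ℝ, 0 < ρ ∧ 1 ≤ M₀ ∧ ∀ (F : ℤ[X]) (M R c₀ : ℝ), Scale d C0 F M R → M₀ ≤ M →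
    |c₀| ≤ C0 * M →
    (∀ z : ℂ, aeval z (derivative F) = 0 → η * M ≤ ‖aeval z F - (c₀ : ℂ)‖) →
      ∃ ξ : Fin d → ℂ → ℂ, Lab d F M ρ c₀ ξ

/-- MON: simple facts on `mon`. -/
def S_MON : Prop := ∀ (F : ℤ[X]) (s : ℤ), 1 ≤ F.natDegree →
  (mon F s).Monic ∧ (mon F s).natDegree = F.natDegree ∧
  (mon F s).map (Int.castRingHom ℂ) = monC F s ∧
  ∀ p : ℕ, p.Prime → |F.leadingCoeff| < p → rho (F - C s) p = rho (mon F s) p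

/-- FIELD: a Galois number field with all the roots. -/
def S_FIELD : Prop := ∀ (d : ℕ) (F : ℤ[X]) (M ρ c₀ : ℝ) (ξ : Fin d → ℂ → ℂ) (S : Finset ℤ),
  1 ≤ d → Lab d F M ρ c₀ ξ → (∀ s ∈ S, |(s : ℝ) - c₀| < ρ * M) →
    ∃ (K : Type) (_ : Field K) (_ : NumberField K) (_ : IsGalois ℚ K) (ι : K →+* ℂ)
      (x : ℤ → Fin d → K) (g : ℤ → (K ≃ₐ[ℚ] K) →* Equiv.Perm (Fin d)), Sys d S ξ K ι x g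

/-- DET: many integer values in a short interval come from a polynomial. -/
def S_DET : Prop := ∀ A : ℕ, ∃ (m : ℕ) (c : ℝ), 0 < c ∧ c < 1 ∧
  ∀ (ρ : ℝ) (k D : ℕ), 0 < ρ → ∃ C₁ M₁ : ℝ, ∀ (M c₀ : ℝ) (E : Fin k → ℂ → ℂ) (S : Finset ℤ),
    M₁ ≤ M → (∀ j, DifferentiableOn ℂ (E j) (Metric.ball (c₀ : ℂ) (ρ * M))) →
    (∀ j, ∀ w ∈ Metric.ball (c₀ : ℂ) (ρ * M), ‖E j w‖ ≤ M ^ A) →
    (∀ s ∈ S, |(s : ℝ) - c₀| ≤ ρ * M / 4) →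
    (∀ s ∈ S, ∀ j, ∃ z : ℤ, E j (s : ℂ) = z) → C₁ * M ^ (1 - c) < S.card →
      ∃ (Q : Fin k → ℚ[X]) (S' : Finset ℤ), S' ⊆ S ∧ D < S'.card ∧
        ∀ j, (Q j).natDegree ≤ m ∧ ∀ s ∈ S', E j (s : ℂ) = aeval (s : ℂ) (Q j)

/-- DETK: the same for algebraic integers which are permuted by the Galois group in the same way
for all `s`. -/
def S_DETK : Prop := ∀ A r : ℕ, ∃ (m : ℕ) (c : ℝ), 0 < c ∧ c < 1 ∧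
  ∀ (ρ : ℝ) (k D : ℕ), 0 < ρ → ∃ C₁ M₁ : ℝ, ∀ (M c₀ : ℝ) (E : Fin k → Fin r → ℂ → ℂ)
    (S : Finset ℤ) (K : Type) [Field K] [NumberField K] [IsGalois ℚ K] (ι : K →+* ℂ)
    (e : Fin k → Fin r → ℤ → K) (π : (K ≃ₐ[ℚ] K) → Equiv.Perm (Fin r)),
    M₁ ≤ M → (∀ j a, DifferentiableOn ℂ (E j a) (Metric.ball (c₀ : ℂ) (ρ * M))) →
    (∀ j a, ∀ w ∈ Metric.ball (c₀ : ℂ) (ρ * M), ‖E j a w‖ ≤ M ^ A) →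
    (∀ s ∈ S, |(s : ℝ) - c₀| ≤ ρ * M / 4) →
    (∀ s ∈ S, ∀ j a, ι (e j a s) = E j a (s : ℂ) ∧ IsIntegral ℤ (e j a s)) →
    (∀ (γ : K ≃ₐ[ℚ] K), ∀ s ∈ S, ∀ j a, γ (e j a s) = e j (π γ a) s) →
    C₁ * M ^ (1 - c) < S.card →
      ∃ (Q : Fin k → Fin r → ℂ[X]) (S' : Finset ℤ), S' ⊆ S ∧ D < S'.card ∧
        ∀ j a, (Q j a).natDegree ≤ m ∧ ∀ s ∈ S', E j a (s : ℂ) = (Q j a).eval (s : ℂ)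

/-- IRR: `mon F s` is irreducible for most `s`. -/
def S_IRR : Prop := ∀ d : ℕ, 1 ≤ d → ∃ c : ℝ, 0 < c ∧ c < 1 ∧ ∀ ρ : ℝ, 0 < ρ →
  ∃ C₁ M₁ : ℝ, ∀ (F : ℤ[X]) (M c₀ : ℝ) (ξ : Fin d → ℂ → ℂ) (S : Finset ℤ),
    Lab d F M ρ c₀ ξ → M₁ ≤ M → (∀ s ∈ S, |(s : ℝ) - c₀| ≤ ρ * M / 4) →
    (∀ s ∈ S, ¬ Irreducible (mon F s)) → (S.card : ℝ) ≤ C₁ * M ^ (1 - c)

open Classical in
/-- HITY: a set of bijections is stable for few `s` or for all but few `s`. -/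
def S_HITY : Prop := ∀ d : ℕ, 1 ≤ d → ∃ c : ℝ, 0 < c ∧ c < 1 ∧ ∀ ρ : ℝ, 0 < ρ →
  ∃ C₁ M₁ : ℝ, ∀ (F : ℤ[X]) (M c₀ : ℝ) (ξ : Fin d → ℂ → ℂ) (S : Finset ℤ)
    (K : Type) [Field K] [NumberField K] [IsGalois ℚ K] (ι : K →+* ℂ)
    (x : ℤ → Fin d → K) (g : ℤ → (K ≃ₐ[ℚ] K) →* Equiv.Perm (Fin d)),
    Lab d F M ρ c₀ ξ → M₁ ≤ M → (∀ s ∈ S, |(s : ℝ) - c₀| ≤ ρ * M / 4) →
    Sys d S ξ K ι x g → ∀ s' ∈ S, ∀ Y : Finset (Equiv.Perm (Fin d)),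
      ((S.filter fun s => Stab g Y s s').card : ℝ) ≤ C₁ * M ^ (1 - c) ∨
      ((S.filter fun s => ¬ Stab g Y s s').card : ℝ) ≤ C₁ * M ^ (1 - c)

/-- HITO: there is no nontrivial partition of the roots which is respected for many `s`. -/
def S_HITO : Prop := ∀ d : ℕ, 1 ≤ d → ∃ c : ℝ, 0 < c ∧ c < 1 ∧ ∀ ρ : ℝ, 0 < ρ →
  ∃ C₁ M₁ : ℝ, ∀ (F : ℤ[X]) (M c₀ : ℝ) (ξ : Fin d → ℂ → ℂ) (S : Finset ℤ)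
    (K : Type) [Field K] [NumberField K] [IsGalois ℚ K] (ι : K →+* ℂ)
    (x : ℤ → Fin d → K) (g : ℤ → (K ≃ₐ[ℚ] K) →* Equiv.Perm (Fin d)),
    Lab d F M ρ c₀ ξ → M₁ ≤ M → (∀ s ∈ S, |(s : ℝ) - c₀| ≤ ρ * M / 4) →
    Sys d S ξ K ι x g → ∀ (part : Fin d → Fin d) (π : (K ≃ₐ[ℚ] K) → Equiv.Perm (Fin d)),
      (∀ (γ : K ≃ₐ[ℚ] K), ∀ s ∈ S, ∀ i, part (g s γ i) = π γ (part i)) →
      C₁ * M ^ (1 - c) < S.card → ∀ i j, part i = part j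

open Classical in
/-- GEN: the generic group (pure combinatorics). -/
def S_GEN : Prop := ∀ d : ℕ, ∃ C : ℕ, ∀ (Γ : Type) [Group Γ] (g : ℤ → Γ →* Equiv.Perm (Fin d))
  (S : Finset ℤ) (E : ℕ),
  (∀ s' ∈ S, ∀ Y : Finset (Equiv.Perm (Fin d)), (S.filter fun s => Stab g Y s s').card ≤ E ∨
    (S.filter fun s => ¬ Stab g Y s s').card ≤ E) →
  (∀ s ∈ S, ∀ Y : Finset (Equiv.Perm (Fin d)), (S.filter fun s' => Stab g Y s s').card ≤ E ∨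
    (S.filter fun s' => ¬ Stab g Y s s').card ≤ E) →
  C * (E + 1) < S.card →
    ∃ (Y : Subgroup (Equiv.Perm (Fin d))) (S₀ : Finset ℤ), S₀ ⊆ S ∧
      (S \ S₀).card ≤ C * (E + 1) ∧
      (∀ γ : Γ, ∀ s ∈ S₀, ∀ s' ∈ S₀, g s' γ * (g s γ)⁻¹ ∈ Y) ∧
      (∀ γ : Γ, ∀ s ∈ S₀, ∀ σ ∈ Y, g s γ * σ * (g s γ)⁻¹ ∈ Y) ∧
      ∀ s' ∈ S₀, (S₀.filter fun s => ¬ ∀ σ ∈ Y, ∃ γ : Γ, σ = g s' γ * (g s γ)⁻¹).card ≤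
        C * (E + 1)

/-- FROB: Frobenius automorphisms exist. -/
def S_FROB : Prop := ∀ (K : Type) [Field K] [NumberField K] [IsGalois ℚ K] (p : ℕ), p.Prime →
  ∃ φ : K ≃ₐ[ℚ] K, IsFrob K p φ

/-- PAIR: the resolvent of a pair of polynomials. -/
def S_PAIR : Prop := ∀ d : ℕ, 1 ≤ d → ∃ B : ℕ, ∀ (K : Type) [Field K] [NumberField K]
  [IsGalois ℚ K] (P P' : ℤ[X]) (x x' : Fin d → K) (H : ℝ)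
  (g g' : (K ≃ₐ[ℚ] K) →* Equiv.Perm (Fin d)) (Y : Subgroup (Equiv.Perm (Fin d))),
  Function.Injective x → Function.Injective x' →
  P.map (algebraMap ℤ K) = ∏ i, (X - C (x i)) → P'.map (algebraMap ℤ K) = ∏ i, (X - C (x' i)) →
  2 ≤ H → RootsLE P H → RootsLE P' H →
  (∀ (γ : K ≃ₐ[ℚ] K) i, γ (x i) = x (g γ i)) → (∀ (γ : K ≃ₐ[ℚ] K) i, γ (x' i) = x' (g' γ i)) →
  (∀ γ : K ≃ₐ[ℚ] K, g' γ * (g γ)⁻¹ ∈ Y) →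
  (∀ γ : K ≃ₐ[ℚ] K, ∀ σ ∈ Y, g γ * σ * (g γ)⁻¹ ∈ Y) →
  (∀ σ ∈ Y, ∃ γ : K ≃ₐ[ℚ] K, σ = g' γ * (g γ)⁻¹) →
    ∃ G : ℤ[X], G.Monic ∧ Irreducible G ∧ G.natDegree = Nat.card Y ∧ RootsLE G (H ^ B) ∧
      ∀ (p : ℕ) (φ : K ≃ₐ[ℚ] K), p.Prime → IsFrob K p φ → H ^ B < p →
        rho G p = Nat.card {σ : Y // g' φ * (σ : Equiv.Perm (Fin d)) = σ * g φ}

/-- PSD: the inequality behind the duality. -/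
def S_PSD : Prop := ∀ (d : ℕ) (Y : Subgroup (Equiv.Perm (Fin d))) (T : Finset ℤ) (m : ℤ → ℝ)
  (h : ℤ → Equiv.Perm (Fin d)), 1 ≤ d → (∀ i j, ∃ σ ∈ Y, σ i = j) → (∀ s ∈ T, 0 ≤ m s) →
  ∑ s ∈ T, m s = 1 → (∀ s ∈ T, ∀ s' ∈ T, h s' * (h s)⁻¹ ∈ Y) →
  (∀ s ∈ T, ∀ σ ∈ Y, h s * σ * (h s)⁻¹ ∈ Y) →
    1 + (∑ s ∈ T, m s * ((Nat.card {i : Fin d // h s i = i} : ℝ) - 1)) ^ 2 / (d : ℝ) ^ 2 ≤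
      ∑ s ∈ T, ∑ s' ∈ T, m s * m s' *
        (Nat.card {σ : Y // h s' * (σ : Equiv.Perm (Fin d)) = σ * h s} : ℝ)

/-- DUALA: the analytic part of the duality. `a s p` will be `ρ_s(p) - 1`, `k s s' p` the number
of equivariant bijections. -/
def S_DUALA : Prop := ∀ (D : ℕ) (C ε c' : ℝ), 0 < C → 0 < ε → 0 < c' →
  ∃ M₁ : ℝ, ∀ (M y : ℝ) (T : Finset ℤ) (m : ℤ → ℝ) (a : ℤ → ℕ → ℝ) (k : ℤ → ℤ → ℕ → ℝ)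
    (bad : ℤ → ℤ → Prop) [∀ s s', Decidable (bad s s')],
    M₁ ≤ M → M ≤ y → ll y ≤ M ^ (c' / 2) → (∀ s ∈ T, 0 ≤ m s) → ∑ s ∈ T, m s = 1 →
    (∀ s ∈ T, ∀ p, |a s p| ≤ D) → (∀ s ∈ T, ∀ s' ∈ T, ∀ p, 0 ≤ k s s' p ∧ k s s' p ≤ D) →
    (∀ p : ℕ, p.Prime → M ^ C < p →
      1 + (∑ s ∈ T, m s * a s p) ^ 2 / (D : ℝ) ^ 2 ≤ ∑ s ∈ T, ∑ s' ∈ T, m s * m s' * k s s' p) →
    (∀ s ∈ T, ∀ s' ∈ T, ¬ bad s s' → ∀ Y : ℝ, 1 ≤ Y →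
      ∑ p ∈ (primesLE Y).filter (fun p : ℕ => M ^ C < p), k s s' p * Real.log p / p ≤
        Real.log Y + C * Real.log M) →
    ∑ s ∈ T, ∑ s' ∈ T with bad s s', m s * m s' ≤ M ^ (-c') →
      |∑ s ∈ T, m s * ∑ p ∈ (primesLE y).filter (fun p : ℕ => M < p), a s p / p| ≤
        ε * Real.sqrt (ll y)

/-- CUP: upper bound for most `s` in a class. -/
def S_CUP : Prop := ∀ d : ℕ, 1 ≤ d → ∃ c : ℝ, 0 < c ∧ c < 1 ∧ ∀ ρ c' ε : ℝ, 0 < ρ → 0 < c' →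
  0 < ε → ∃ M₁ : ℝ, ∀ (F : ℤ[X]) (M c₀ y : ℝ) (ξ : Fin d → ℂ → ℂ) (S : Finset ℤ) (m : ℤ → ℝ),
    Lab d F M ρ c₀ ξ → M₁ ≤ M → M ≤ y → (∀ s ∈ S, |(s : ℝ) - c₀| ≤ ρ * M / 4) →
    (∀ s ∈ S, 0 ≤ m s) → ∑ s ∈ S, m s ≤ 1 → AC S m M c c' →
      mass S m (fun s => ll y - ll M + ε * Real.sqrt (ll y) < RS (F - C s) M y) ≤ ε

/-- CLOW: lower bound for most `s` in a class. -/
def S_CLOW : Prop := ∀ d : ℕ, 1 ≤ d → ∃ c : ℝ, 0 < c ∧ c < 1 ∧ ∀ ρ c' ε : ℝ, 0 < ρ → 0 < c' →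
  0 < ε → ∃ M₁ : ℝ, ∀ (F : ℤ[X]) (M c₀ y : ℝ) (ξ : Fin d → ℂ → ℂ) (S : Finset ℤ) (m : ℤ → ℝ),
    Lab d F M ρ c₀ ξ → M₁ ≤ M → M ≤ y → (∀ s ∈ S, |(s : ℝ) - c₀| ≤ ρ * M / 4) →
    (∀ s ∈ S, 0 ≤ m s) → ∑ s ∈ S, m s ≤ 1 → AC S m M c c' →
      mass S m (fun s => RS (F - C s) M y < ll y - ll M - ε * Real.sqrt (ll y)) ≤ ε

/-- LARGE: the main theorem of the heart. -/
def S_LARGE : Prop := ∀ (d : ℕ) (C0 : ℝ), 1 ≤ d → 1 ≤ C0 → ∃ c : ℝ, 0 < c ∧ c < 1 ∧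
  ∀ c' ε η : ℝ, 0 < c' → 0 < ε → 0 < η → ∃ M₁ : ℝ,
    ∀ (F : ℤ[X]) (M R y : ℝ) (S : Finset ℤ) (m : ℤ → ℝ), Scale d C0 F M R → M₁ ≤ M → M ≤ y →
      (∀ s ∈ S, |(s : ℝ)| ≤ C0 * M) → (∀ s ∈ S, 0 ≤ m s) → ∑ s ∈ S, m s ≤ 1 → AC S m M c c' →
      (∀ u : ℝ, mass S m (fun s => |(s : ℝ) - u| ≤ η * M) ≤ ε / (4 * d)) →
        mass S m (fun s => ε * Real.sqrt (ll y) < |RS (F - C s) M y - (ll y - ll M)|) ≤ ε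

end Pool.Agent.Helper20.EP
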