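import Pool.Agent.Helper20.EP.Heart
import Pool.Agent.Helper12.EP.Large
import Pool.Agent.Helper20.EP.Spec3
import Pool.Agent.Helper9.EP.WINV
import Pool.Agent.Helper51.EP.EQ
import Pool.Agent.Helper51.EP.CDF
import Pool.Agent.Helper51.EP.EXPS
import Pool.Agent.Helper51.EP.ALPHA
import Pool.Agent.Helper94.EP.EKU
import Pool.Agent.Helper94.EP.CLOW
import Pool.Agent.Helper29.EP.FIB
import Pool.Agent.Helper2.EP.BIGP
import Pool.Agent.Helper2.EP.SCALE
import Pool.Agent.Helper2.EP.ZERO
import Pool.Agent.Helper2.EP.FIN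
import Pool.Agent.Helper14.EP.CELLC
import Pool.Agent.Helper14.EP.MINC
import Pool.Agent.Helper14.EP.VAR
import Pool.Agent.Helper33.EP.DIVA
import Pool.Agent.Helper1.EP.DIVC
import Pool.Agent.Helper84.EP.EXDAT
import Pool.Agent.Helper97.EP.MAJ
import Pool.Agent.Helper97.EP.MEAN
import Pool.Agent.Helper12.EP.Mert
import Pool.Agent.Helper12.EP.Small
import Pool.Agent.Helper46.EP.MIN
import Pool.Agent.Helper85.EP.RUNS
import Pool.Agent.Helper3.EP.SUBI
import Pool.Agent.Helper3.EP.SUBU
import Pool.Agent.Helper52.EP.INT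
import Pool.Agent.Helper57.EP.PAC
import Pool.Agent.Helper98.EP.COMB
import Pool.Agent.Helper98.EP.QPR

/-!
# EP: the final assembly
-/

set_option autoImplicit false

namespace Pool.Agent.Helper20.EP

theorem clow_thm : S_CLOW := Pool.Agent.Helper94.EP.CLOW.main osm tsm mon_thm field_thm irr_thm
  hity_thm hito_thm gen_thm frob_thm pair_thm psd_thm duala_thm

theorem large_thm : S_LARGE := Pool.Agent.Helper12.EP.Large.main roots_thm cup_thm clow_thm

theorem winv_thm : S_WINV := Pool.Agent.Helper9.WI.main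
theorem eq_thm : S_EQ := Pool.Agent.Helper51.EP.EQ.main
theorem cdf_thm : S_CDF := Pool.Agent.Helper51.EP.CDF.main
theorem eku_thm : S_EKU := Pool.Agent.Helper94.EP.main
theorem fib_thm : S_FIB := Pool.Agent.Helper29.EP.main
theorem exps_thm : S_EXPS := Pool.Agent.Helper51.EP.EXPS.main winv_thm
theorem alpha_thm : S_ALPHA := Pool.Agent.Helper51.EP.ALPHA.main exps_thm eq_thm
theorem diva_thm : S_DIVA := Pool.Agent.Helper33.EP.DIVA.main alpha_thm
theorem runs_thm : S_RUNS := Pool.Agent.Helper85.EP.RUNS.main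
theorem subi_thm : S_SUBI := Pool.Agent.Helper3.EP.main
theorem subu_thm : S_SUBU := Pool.Agent.Helper3.EP.SUBU.main subi_thm
theorem scale_thm : S_SCALE := Pool.Agent.Helper2.EP.SCALE.main
theorem divc_thm : S_DIVC := Pool.Agent.Helper1.EP.main runs_thm
theorem int_thm : S_INT := Pool.Agent.Helper52.EP.INT.main alpha_thm subi_thm
theorem mert_thm : S_MERT := Pool.Agent.Helper12.EP.Mert.mert
theorem omr_thm : S_OMR := Pool.Agent.Helper12.EP.Mert.omr mert_thm
theorem qpr_thm : S_QPR := Pool.Agent.Helper98.EPQPR.main diva_thm omr_thm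
theorem small_thm : S_SMALL :=
  Pool.Agent.Helper12.EP.Small.main diva_thm divc_thm mert_thm omr_thm scale_thm
theorem var_thm : S_VAR := Pool.Agent.Helper14.EP.var diva_thm omr_thm scale_thm
theorem bigp_thm : S_BIGP := Pool.Agent.Helper2.EP.BIGP.main
theorem zero_thm : S_ZERO := Pool.Agent.Helper2.EP.ZERO.main
theorem comb_thm : S_COMB := Pool.Agent.Helper98.EPCOMB.main
theorem minc_thm : S_MINC := Pool.Agent.Helper14.EP.minc diva_thm eku_thm
theorem cellc_thm : S_CELLC := Pool.Agent.Helper14.EP.cellc divc_thm eku_thm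
theorem min_thm : S_MIN :=
  Pool.Agent.Helper46.EP.MIN.main minc_thm bigp_thm zero_thm mert_thm comb_thm

theorem pac_thm : S_PAC := Pool.Agent.Helper57.EP.PAC.main fib_thm runs_thm subu_thm
theorem mean_thm : S_MEAN := H97.mean_main small_thm large_thm pac_thm int_thm scale_thm
theorem maj_thm : S_MAJ :=
  H97.maj_main cellc_thm mean_thm var_thm qpr_thm bigp_thm zero_thm comb_thm scale_thm

/-- The theorem. -/
theorem fin_thm : S_FIN :=
  Pool.Agent.Helper2.EP.FIN.main Pool.Agent.Helper84.EP.exdat Pool.Agent.Helper84.EP.limm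
    maj_thm min_thm cdf_thm

end Pool.Agent.Helper20.EP
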