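import Mathlib

/-!
# EP: the Erdős–Kac law for the integer parts of real polynomials (MP_75c0be_nt). Definitions
-/

set_option autoImplicit false

open Polynomial

namespace Pool.Agent.Helper20.EP

/-- The number of roots of `g` modulo `p`. -/
def rho (g : ℤ[X]) (p : ℕ) : ℕ :=
  ((Finset.range p).filter fun x : ℕ => (p : ℤ) ∣ g.eval (x : ℤ)).card

/-- The primes `≤ Y`. -/
noncomputable def primesLE (Y : ℝ) : Finset ℕ := (Finset.range (⌊Y⌋₊ + 1)).filter Nat.Prime

/-- `e(x) = exp(2 π i x)` -/
noncomputable def ee (x : ℝ) : ℂ := Complex.exp (2 * Real.pi * x * Complex.I)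

/-- All complex roots of `g` have absolute value at most `H`. -/
def RootsLE (g : ℤ[X]) (H : ℝ) : Prop := ∀ z : ℂ, aeval z g = 0 → ‖z‖ ≤ H

/-- The number of different primes dividing `m` (`0` for `m = 0`). -/
def omg (m : ℤ) : ℕ := m.natAbs.primeFactors.card

end Pool.Agent.Helper20.EP
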