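import Pool.Agent.Helper20.EP.Defs

/-!
# EP: definitions for the heart of the proof
-/

set_option autoImplicit false

open Polynomial

namespace Pool.Agent.Helper20.EP

/-- The monic integer polynomial whose roots are `b x`, `F(x) = s`, `b` the leading coefficient. -/
noncomputable def mon (F : ℤ[X]) (s : ℤ) : ℤ[X] := (F - C s).integralNormalization

/-- The same for a complex number `w`. -/
noncomputable def monC (F : ℤ[X]) (w : ℂ) : ℂ[X] :=
  (F.map (Int.castRingHom ℂ) - C w).integralNormalization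

/-- `F(R y) / M` has coefficients at most `C0`, leading coefficient at least `1 / C0`. -/
structure Scale (d : ℕ) (C0 : ℝ) (F : ℤ[X]) (M R : ℝ) : Prop where
  deg : F.natDegree = d
  hR : 1 ≤ R
  up : ∀ j : ℕ, |(F.coeff j : ℝ)| * R ^ j ≤ C0 * M
  low : M ≤ C0 * |(F.coeff d : ℝ)| * R ^ d

/-- Labelled holomorphic root functions of `mon F w` for `w` in the disc around `c₀` with radius
`ρ M`. -/
structure Lab (d : ℕ) (F : ℤ[X]) (M ρ c₀ : ℝ) (ξ : Fin d → ℂ → ℂ) : Prop where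
  deg : F.natDegree = d
  diff : ∀ i, DifferentiableOn ℂ (ξ i) (Metric.ball (c₀ : ℂ) (ρ * M))
  bd : ∀ i, ∀ w ∈ Metric.ball (c₀ : ℂ) (ρ * M), ‖ξ i w‖ ≤ M ^ 3
  roots : ∀ w ∈ Metric.ball (c₀ : ℂ) (ρ * M), monC F w = ∏ i, (X - C (ξ i w))
  inj : ∀ w ∈ Metric.ball (c₀ : ℂ) (ρ * M), Function.Injective fun i => ξ i w
  lc : |(F.leadingCoeff : ℝ)| ≤ M ^ 2

/-- `x s i` are the roots of `mon F s` (`s ∈ S`) in a Galois number field, `g s` the action of the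
Galois group on the labels. -/
structure Sys (d : ℕ) (S : Finset ℤ) (ξ : Fin d → ℂ → ℂ) (K : Type) [Field K]
    [NumberField K] (ι : K →+* ℂ) (x : ℤ → Fin d → K)
    (g : ℤ → (K ≃ₐ[ℚ] K) →* Equiv.Perm (Fin d)) : Prop where
  emb : ∀ s ∈ S, ∀ i, ι (x s i) = ξ i (s : ℂ)
  act : ∀ s ∈ S, ∀ (γ : K ≃ₐ[ℚ] K) (i : Fin d), γ (x s i) = x s (g s γ i)

/-- The set `Y` of bijections is stable at the pair `(s, s')`. -/
def Stab {d : ℕ} {Γ : Type} [Group Γ] (g : ℤ → Γ →* Equiv.Perm (Fin d))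
    (Y : Finset (Equiv.Perm (Fin d))) (s s' : ℤ) : Prop :=
  ∀ γ : Γ, ∀ σ ∈ Y, g s' γ * σ * (g s γ)⁻¹ ∈ Y

/-- `φ` is a Frobenius automorphism at `p`. -/
def IsFrob (K : Type) [Field K] [NumberField K] (p : ℕ) (φ : K ≃ₐ[ℚ] K) : Prop :=
  ∀ (n : ℕ) (P : ℤ[X]) (x : Fin n → K) (H : ℝ), Function.Injective x →
    P.map (algebraMap ℤ K) = ∏ i, (X - C (x i)) → 2 ≤ H → RootsLE P H →
      (2 * H) ^ (n ^ 2) < p → rho P p = Nat.card {i : Fin n // φ (x i) = x i}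

/-- Sparse sets have small mass. -/
def AC (S : Finset ℤ) (m : ℤ → ℝ) (M c c' : ℝ) : Prop :=
  ∀ A ⊆ S, (A.card : ℝ) ≤ M ^ (1 - c) → ∑ s ∈ A, m s ≤ M ^ (-c')

open Classical in
/-- The mass of the `s ∈ S` with a property. -/
noncomputable def mass (S : Finset ℤ) (m : ℤ → ℝ) (P : ℤ → Prop) : ℝ := ∑ s ∈ S.filter P, m s

/-- Sum of `ρ(p) / p` over the primes `p` with `x < p ≤ y`. -/
noncomputable def RS (g : ℤ[X]) (x y : ℝ) : ℝ :=
  ∑ p ∈ (primesLE y).filter (fun p : ℕ => x < p), (rho g p : ℝ) / p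

/-- `log log` -/
noncomputable def ll (x : ℝ) : ℝ := Real.log (Real.log x)

end Pool.Agent.Helper20.EP
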