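import Pool.Agent.Helper20.EP.Defs2

/-!
# EP: definitions for the assembly
-/

set_option autoImplicit false

open Polynomial

namespace Pool.Agent.Helper20.EP

/-- An approximation of the non-constant coefficients of `f` by those of `F / q`. -/
structure App (f : ℝ[X]) (N q : ℕ) (F : ℤ[X]) (T : ℝ) : Prop where
  q_pos : 1 ≤ q
  T_nn : 0 ≤ T
  deg : F.natDegree ≤ f.natDegree
  c0 : F.coeff 0 = 0
  app : ∀ j : ℕ, 1 ≤ j → |f.coeff j - (F.coeff j : ℝ) / q| * (N : ℝ) ^ j ≤ T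

/-- An almost optimal approximation; `M` is the complexity of `f` on `[1, N]`. -/
structure Dat (f : ℝ[X]) (N q : ℕ) (F : ℤ[X]) (T M : ℝ) : Prop extends App f N q F T where
  hM : M = q * (1 + T)
  sharp : ∃ j : ℕ, 1 ≤ j ∧ |f.coeff j - (F.coeff j : ℝ) / q| * (N : ℝ) ^ j = T
  gcd1 : ∀ g : ℕ, g ∣ q → (∀ j, 1 ≤ j → (g : ℤ) ∣ F.coeff j) → g = 1
  min : ∀ (q' : ℕ) (F' : ℤ[X]) (T' : ℝ), App f N q' F' T' → M ≤ 2 * (q' * (1 + T'))

/-- `f - F / q` -/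
noncomputable def th (f : ℝ[X]) (q : ℕ) (F : ℤ[X]) : ℝ[X] :=
  f - C ((q : ℝ)⁻¹) * F.map (Int.castRingHom ℝ)

/-- `s_n = F(n) - q ⌊f(n)⌋` -/
noncomputable def sn (f : ℝ[X]) (q : ℕ) (F : ℤ[X]) (n : ℕ) : ℤ :=
  F.eval (n : ℤ) - q * ⌊f.eval (n : ℝ)⌋

/-- The `n ≤ N` with `s_n = s`. -/
noncomputable def cell (f : ℝ[X]) (N q : ℕ) (F : ℤ[X]) (s : ℤ) : Finset ℕ :=
  (Finset.Icc 1 N).filter fun n => sn f q F n = s

/-- The primes `≤ y` which do not divide `q`. -/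
noncomputable def Pq (q : ℕ) (y : ℝ) : Finset ℕ := (primesLE y).filter fun p => ¬ p ∣ q

/-- `ρ_s(p) / p` -/
noncomputable def lam (F : ℤ[X]) (s : ℤ) (p : ℕ) : ℝ := (rho (F - C s) p : ℝ) / p

/-- The mean in the cell of `s`. -/
noncomputable def mu (F : ℤ[X]) (q : ℕ) (y : ℝ) (s : ℤ) : ℝ := ∑ p ∈ Pq q y, lam F s p

/-- The variance in the cell of `s`. -/
noncomputable def va (F : ℤ[X]) (q : ℕ) (y : ℝ) (s : ℤ) : ℝ :=
  ∑ p ∈ Pq q y, lam F s p * (1 - lam F s p)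

/-- The mean for `λ_p = 1 / p`. -/
noncomputable def mu0 (y : ℝ) : ℝ := ∑ p ∈ primesLE y, (1 : ℝ) / p

/-- The variance for `λ_p = 1 / p`. -/
noncomputable def va0 (y : ℝ) : ℝ := ∑ p ∈ primesLE y, (1 : ℝ) / p * (1 - 1 / p)

/-- The number of primes `p ≤ y`, `p ∤ q`, which divide `⌊f(n)⌋`. -/
noncomputable def Zn (f : ℝ[X]) (q : ℕ) (y : ℝ) (n : ℕ) : ℕ :=
  ((Pq q y).filter fun p : ℕ => (p : ℤ) ∣ ⌊f.eval (n : ℝ)⌋).card

/-- The normalised number of prime divisors. -/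
noncomputable def xn (f : ℝ[X]) (N n : ℕ) : ℝ :=
  ((omg ⌊f.eval (n : ℝ)⌋ : ℝ) - ll N) / Real.sqrt (ll N)

open Classical in
/-- The number of `n ∈ [1, N]` with a property. -/
noncomputable def cnt (N : ℕ) (P : ℕ → Prop) : ℝ := (((Finset.Icc 1 N).filter P).card : ℝ)

/-- The conditions on the cut-off `y`. -/
structure Good (κ : ℝ) (N : ℕ) (y : ℝ) : Prop where
  two : 2 ≤ y
  le : y ≤ N
  quo : Real.log N / Real.log y ≤ κ * Real.sqrt (ll N)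
  dif : ll N - ll y ≤ κ * Real.sqrt (ll N)

end Pool.Agent.Helper20.EP
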