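import Pool.Agent.Helper20.EP.Spec2
import Pool.Agent.Helper72.EP.OSM
import Pool.Agent.Helper2.TS.All
import Pool.Agent.Helper89.EP.ROOTS
import Pool.Agent.Helper11.EP.MON
import Pool.Agent.Helper31.EP.FIELD
import Pool.Agent.Helper6.EP.DET
import Pool.Agent.Helper50.EP.IRR
import Pool.Agent.Helper57.EP.Hity
import Pool.Agent.Helper59.EP.HITO
import Pool.Agent.Helper74.EP.GEN
import Pool.Agent.Helper74.EP.PSD
import Pool.Agent.Helper10.EP.FROB
import Pool.Agent.Helper10.EP.PAIR
import Pool.Agent.Helper12.EP.DualA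
import Pool.Agent.Helper31.EP.CUP

/-!
# EP: the heart of the proof, assembled
-/

set_option autoImplicit false

namespace Pool.Agent.Helper20.EP

theorem osm : S_OSM := Pool.Agent.Helper72.EP.main
theorem tsm : S_TSM := Pool.Agent.Helper2.TS.All.main
theorem mon_thm : S_MON := Pool.Agent.Helper11.EPMON.main
theorem roots_thm : S_ROOTS := Pool.Agent.Helper89.EP.roots
theorem field_thm : S_FIELD := Pool.Agent.Helper31.EP.FIELD.main mon_thm
theorem det_thm : S_DET := Pool.Agent.Helper6.EP.det_thm
theorem detk_thm : S_DETK := Pool.Agent.Helper6.EP.detk_thm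
theorem irr_thm : S_IRR := Pool.Agent.Helper50.EP.irr mon_thm det_thm
theorem hity_thm : S_HITY := Pool.Agent.Helper57.EP.hity det_thm mon_thm
theorem hito_thm : S_HITO := Pool.Agent.Helper59.EP.HITO.main mon_thm detk_thm
theorem gen_thm : S_GEN := Pool.Agent.Helper74.EP.gen
theorem psd_thm : S_PSD := Pool.Agent.Helper74.EP.psd
theorem frob_thm : S_FROB := Pool.Agent.Helper10.EP.FROB.main
theorem pair_thm : S_PAIR := Pool.Agent.Helper10.EP.PAIR.main
theorem duala_thm : S_DUALA := Pool.Agent.Helper12.EP.DualA.main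
theorem cup_thm : S_CUP := Pool.Agent.Helper31.EP.CUP.main irr_thm osm mon_thm

end Pool.Agent.Helper20.EP
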